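import Pool.Agent.U251.LD.StmQ
import Pool.Agent.U251.LD.LIM
import Pool.Agent.U251.LB.C

/-!
# Project LDQ, package RM (helper129): measurability of the paths

Port of `Pool.Agent.U901.LB.RM` (helper901).
-/

set_option autoImplicit false

namespace Pool.Agent.U129.LD.RM

open Real MeasureTheory Filter Topology Pool.Agent.U581.BM Pool.Agent.U581.LB Pool.Agent.U251.LB
open Pool.Agent.U251.LD.Lim (Pd_meas)

private theorem UD_cont (N : ℕ) : Continuous (Pool.Agent.U251.LD.UD N) := by
  unfold Pool.Agent.U251.LD.UD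
  fun_prop

theorem t_RM : Pool.Agent.U251.LD.S_RM := by
  intro _ _ ρ T M L
  have hc : Continuous fun z => polygon M (ext0 M z) := polygon_cont M fun i => ext0_cont M i
  have hmul : Measurable fun x : ℝ => T * x := measurable_const_mul T
  constructor
  · have hz : ∀ i : ℕ, Measurable fun R : ℝ =>
        (Pool.Agent.U251.LD.Pd (R + ρ * (i / M)) - Pool.Agent.U251.LD.Pd R) /
          (√R * Pool.Agent.U251.LD.sg ρ) := by
      intro i
      exact ((Pd_meas.comp (measurable_id.add_const _)).sub Pd_meas).div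
        ((Real.continuous_sqrt.measurable).mul_const _)
    have hv := vec_meas M (c := fun R (i : ℕ) =>
      (Pool.Agent.U251.LD.Pd (R + ρ * (i / M)) - Pool.Agent.U251.LD.Pd R) /
        (√R * Pool.Agent.U251.LD.sg ρ)) hz
    have h1 := (hc.measurable.comp hv).comp hmul
    have e : (fun x => Pool.Agent.U251.LD.pathR ρ M (T * x)) =
        ((fun z => polygon M (ext0 M z)) ∘ fun R =>
        vec M (fun i : ℕ => (Pool.Agent.U251.LD.Pd (R + ρ * (i / M)) -
          Pool.Agent.U251.LD.Pd R) / (√R * Pool.Agent.U251.LD.sg ρ))) ∘ fun x => T * x := by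
      funext x
      show Pool.Agent.U251.LD.pathR ρ M (T * x) = polygon M (ext0 M (vec M _))
      rw [polygon_vec]
      rfl
    rw [e]
    exact h1
  · have hz : ∀ i : ℕ, Measurable fun R : ℝ =>
        (Pool.Agent.U251.LD.UD (L ^ 2) (R + ρ * (i / M)) - Pool.Agent.U251.LD.UD (L ^ 2) R) /
          Pool.Agent.U251.LD.sg ρ := fun i =>
      ((((UD_cont (L ^ 2)).comp (continuous_id.add continuous_const)).sub
        (UD_cont (L ^ 2))).div_const _).measurable
    have hv := vec_meas M (c := fun R (i : ℕ) =>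
      (Pool.Agent.U251.LD.UD (L ^ 2) (R + ρ * (i / M)) - Pool.Agent.U251.LD.UD (L ^ 2) R) /
        Pool.Agent.U251.LD.sg ρ) hz
    have h1 := (hc.measurable.comp hv).comp hmul
    have e : (fun x => Pool.Agent.U251.LD.pathU ρ M L (T * x)) =
        ((fun z => polygon M (ext0 M z)) ∘ fun R =>
        vec M (fun i : ℕ => (Pool.Agent.U251.LD.UD (L ^ 2) (R + ρ * (i / M)) -
          Pool.Agent.U251.LD.UD (L ^ 2) R) / Pool.Agent.U251.LD.sg ρ)) ∘
          fun x => T * x := by
      funext x
      show Pool.Agent.U251.LD.pathU ρ M L (T * x) = polygon M (ext0 M (vec M _))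
      rw [polygon_vec]
      rfl
    rw [e]
    exact h1

end Pool.Agent.U129.LD.RM
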